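import Mathlib
import Pool.Agent.Results.MP_169869_co.FibreMultiplicity

/-! A union bound over the small sets in a window. -/

set_option autoImplicit false

open Finset

namespace Pool.Agent.X163.PC.Rare

/-- The choices of a residue for every modulus in `Q`. -/
def choices (Q : Finset ℕ) : Finset (↥Q → ℕ) := Fintype.piFinset (fun q => range q.1)

/-- The number of the `1 ≤ n ≤ N` with remainder `a q` modulo `q` for some `q ∈ Q`. -/
noncomputable def hits (Q : Finset ℕ) (N : ℕ) (a : ↥Q → ℕ) : ℕ :=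
  Set.ncard {n : ℕ | 1 ≤ n ∧ n ≤ N ∧ ∃ q : ↥Q, n % q.1 = a q}

theorem hits_eq (Q : Finset ℕ) (N : ℕ) (a : ↥Q → ℕ) :
    hits Q N a = ((Icc 1 N).filter (fun n => ∃ q : ↥Q, n % q.1 = a q)).card := by
  classical
  unfold hits
  rw [← Set.ncard_coe_finset]
  congr 1
  ext n
  simp only [Set.mem_ofPred_eq, coe_filter, mem_Icc]
  tauto

/-- the small subsets of a finite set -/
theorem card_small {β : Type} [DecidableEq β] (W : Finset β) (t : ℕ) :
    (W.powerset.filter (fun T => T.card ≤ t)).card ≤ (W.card + 1) ^ t := by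
  classical
  induction t with
  | zero =>
    have : (W.powerset.filter (fun T => T.card ≤ 0)) ⊆ {∅} := by
      intro T hT
      rw [mem_filter] at hT
      rw [mem_singleton, ← card_eq_zero]
      omega
    simpa using card_le_card this
  | succ t ih =>
    have hsub : W.powerset.filter (fun T => T.card ≤ t + 1) ⊆
        ((W.powerset.filter (fun T => T.card ≤ t)) ×ˢ (insertNone W)).image
          (fun z => z.2.elim z.1 (fun x => insert x z.1)) := by
      intro T hT
      rw [mem_filter, mem_powerset] at hT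
      obtain ⟨hTW, hTc⟩ := hT
      rcases T.eq_empty_or_nonempty with h0 | ⟨x, hx⟩
      · subst h0
        refine mem_image.2 ⟨(∅, none), ?_, rfl⟩
        rw [mem_product, mem_filter, mem_powerset]
        exact ⟨⟨empty_subset _, by simp⟩, by simp⟩
      · refine mem_image.2 ⟨(T.erase x, some x), ?_, ?_⟩
        · rw [mem_product, mem_filter, mem_powerset]
          refine ⟨⟨(erase_subset _ _).trans hTW, ?_⟩, ?_⟩
          · rw [card_erase_of_mem hx]
            omega
          · simpa using hTW hx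
        · simp [insert_erase hx]
    refine (card_le_card hsub).trans (card_image_le.trans ?_)
    rw [card_product, card_insertNone, pow_succ]
    exact Nat.mul_le_mul_right _ ih

/-- the residues modulo `q` whose class meets the window only in `T` -/
def good (W T : Finset ℕ) (q : ℕ) : Finset ℕ :=
  (range q).filter (fun r => ∀ n ∈ W, n % q = r → n ∈ T)

theorem exists_rep (u q r : ℕ) (hr : r < q) : ∃ x, u < x ∧ x ≤ u + q ∧ x % q = r := by
  have hq : 0 < q := by omega
  refine ⟨u + 1 + (r + q * (u + 1) - (u + 1)) % q, by omega, ?_, ?_⟩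
  · have := Nat.mod_lt (r + q * (u + 1) - (u + 1)) hq
    omega
  · rw [Nat.add_mod_mod]
    have h1 : u + 1 ≤ q * (u + 1) := Nat.le_mul_of_pos_left _ hq
    have h2 : u + 1 + (r + q * (u + 1) - (u + 1)) = r + q * (u + 1) := by omega
    rw [h2, Nat.add_mul_mod_self_left, Nat.mod_eq_of_lt hr]

open Pool.Agent.Results.MP_169869_co.GeometricMeans (diffs slice)
open Pool.Agent.Results.MP_169869_co.FibreMultiplicity (starts)

/-- The sums-differences inequality for `k` slices. -/
def SD (k : ℕ) (c : ℝ) : Prop :=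
  ∀ A : Finset (ℤ × ℤ), A.Nonempty →
    ∃ j < k, ((diffs A).card : ℝ) ≤ ((slice (j : ℕ) A).card : ℝ) ^ c

/-- The numbers of the possible residues, given the covered set in a window. -/
theorem sum_good {k : ℕ} {c : ℝ} (hc1 : 1 < c) (hc2 : c ≤ 2) (hSD : SD k c) (u w : ℕ)
    (Q : Finset ℕ) (hQ : ∀ q ∈ Q, k * q ≤ w) (T : Finset ℕ) (t : ℕ)
    (hT : T.card ≤ t) :
    ∑ q ∈ Q, ((good (Ioc u (u + w)) T q).card : ℝ) ^ (c - 1) ≤ (t : ℝ) ^ c := by
  classical
  -- representatives
  have hrep : ∀ q r : ℕ, ∃ x, r < q → u < x ∧ x ≤ u + q ∧ x % q = r := by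
    intro q r
    by_cases h : r < q
    · obtain ⟨x, hx⟩ := exists_rep u q r h
      exact ⟨x, fun _ => hx⟩
    · exact ⟨0, fun h' => absurd h' h⟩
  choose f hf using hrep
  obtain ⟨A, hA⟩ : ∃ A : Finset (ℤ × ℤ), A = Q.biUnion (fun q =>
      (good (Ioc u (u + w)) T q).image (fun r => ((f q r : ℤ), (q : ℤ)))) := ⟨_, rfl⟩
  have hgr : ∀ q, ∀ r ∈ good (Ioc u (u + w)) T q, r < q := fun q r hr =>
    mem_range.1 (mem_filter.1 hr).1
  rcases A.eq_empty_or_nonempty with h0 | hne
  · have h1 : ∀ q ∈ Q, ((good (Ioc u (u + w)) T q).card : ℝ) ^ (c - 1) = 0 := by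
      intro q hq
      have h2 : good (Ioc u (u + w)) T q = ∅ := by
        rw [eq_empty_iff_forall_notMem]
        intro r hr
        have : ((f q r : ℤ), (q : ℤ)) ∈ A := by
          rw [hA]
          exact mem_biUnion.2 ⟨q, hq, mem_image_of_mem _ hr⟩
        rw [h0] at this
        exact notMem_empty _ this
      rw [h2, card_empty, Nat.cast_zero, Real.zero_rpow (by linarith)]
    rw [sum_congr rfl h1, sum_const_zero]
    positivity
  obtain ⟨j, hj, h1⟩ := Pool.Agent.Results.MP_169869_co.FibreMultiplicity.Aux4.slices hc1.le hc2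
    hSD A hne
  -- the slices lie in `T`
  have h2 : (slice (j : ℕ) A).card ≤ t := by
    refine le_trans ?_ hT
    have h3 : slice (j : ℕ) A ⊆ T.image (fun n : ℕ => (n : ℤ)) := by
      intro x hx
      unfold Pool.Agent.Results.MP_169869_co.GeometricMeans.slice at hx
      obtain ⟨z, hz, rfl⟩ := mem_image.1 hx
      rw [hA, mem_biUnion] at hz
      obtain ⟨q, hq, hz⟩ := hz
      obtain ⟨r, hr, rfl⟩ := mem_image.1 hz
      have h4 := hf q r (hgr q r hr)
      refine mem_image.2 ⟨f q r + j * q, ?_, by push_cast; ring⟩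
      have h5 := (mem_filter.1 hr).2
      have h6 : (j + 1) * q ≤ k * q := Nat.mul_le_mul_right _ hj
      have h7 := hQ q hq
      have h8 : (j + 1) * q = j * q + q := by ring
      refine h5 _ (mem_Ioc.2 ⟨by omega, by omega⟩) ?_
      rw [Nat.add_mul_mod_self_right]
      exact h4.2.2
    exact (card_le_card h3).trans card_image_le
  have h3 : ((slice (j : ℕ) A).card : ℝ) ^ c ≤ (t : ℝ) ^ c :=
    Real.rpow_le_rpow (Nat.cast_nonneg _) (by exact_mod_cast h2) (by linarith)
  refine le_trans ?_ (h1.trans h3)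
  -- the fibres
  have h4 : ∀ q ∈ Q, (good (Ioc u (u + w)) T q).card ≤ starts A (q : ℤ) := by
    intro q hq
    unfold Pool.Agent.Results.MP_169869_co.FibreMultiplicity.starts
    refine card_le_card_of_injOn (fun r => ((f q r : ℤ), (q : ℤ))) ?_ ?_
    · intro r hr
      rw [mem_coe, mem_filter]
      refine ⟨?_, rfl⟩
      rw [hA]
      exact mem_biUnion.2 ⟨q, hq, mem_image_of_mem _ hr⟩
    · intro r hr r' hr' heq
      simp only [Prod.mk.injEq, and_true] at heq
      have e : f q r = f q r' := by exact_mod_cast heq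
      rw [← (hf q r (hgr q r hr)).2.2, ← (hf q r' (hgr q r' hr')).2.2, e]
  have h5 : ∀ q ∈ Q.filter (fun q => (good (Ioc u (u + w)) T q).Nonempty), (q : ℤ) ∈ diffs A := by
    intro q hq
    rw [mem_filter] at hq
    obtain ⟨hq, r, hr⟩ := hq
    unfold Pool.Agent.Results.MP_169869_co.GeometricMeans.diffs
    refine mem_image.2 ⟨((f q r : ℤ), (q : ℤ)), ?_, rfl⟩
    rw [hA]
    exact mem_biUnion.2 ⟨q, hq, mem_image_of_mem _ hr⟩
  calc ∑ q ∈ Q, ((good (Ioc u (u + w)) T q).card : ℝ) ^ (c - 1)
      = ∑ q ∈ Q.filter (fun q => (good (Ioc u (u + w)) T q).Nonempty),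
          ((good (Ioc u (u + w)) T q).card : ℝ) ^ (c - 1) := by
        rw [sum_filter]
        refine sum_congr rfl fun q _ => ?_
        by_cases h : (good (Ioc u (u + w)) T q).Nonempty
        · rw [if_pos h]
        · rw [if_neg h, not_nonempty_iff_eq_empty.1 h, card_empty, Nat.cast_zero,
            Real.zero_rpow (by linarith)]
    _ ≤ ∑ q ∈ Q.filter (fun q => (good (Ioc u (u + w)) T q).Nonempty),
          (starts A (q : ℤ) : ℝ) ^ (c - 1) :=
        sum_le_sum fun q hq => Real.rpow_le_rpow (Nat.cast_nonneg _)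
          (by exact_mod_cast h4 q (mem_filter.1 hq).1) (by linarith)
    _ = ∑ d ∈ (Q.filter (fun q => (good (Ioc u (u + w)) T q).Nonempty)).image (fun q : ℕ => (q : ℤ)),
          (starts A d : ℝ) ^ (c - 1) := by
        rw [sum_image]
        intro x _ y _ h
        exact Nat.cast_injective (R := ℤ) h
    _ ≤ _ := by
        refine sum_le_sum_of_subset_of_nonneg ?_ fun _ _ _ => by positivity
        intro d hd
        obtain ⟨q, hq, rfl⟩ := mem_image.1 hd
        exact h5 q hq

/-- product of the numbers of residues -/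
theorem prod_good {k : ℕ} {c : ℝ} (hc1 : 1 < c) (hc2 : c ≤ 2) (hSD : SD k c) (u w : ℕ)
    (Q : Finset ℕ) (hne : Q.Nonempty) (hQ : ∀ q ∈ Q, k * q ≤ w)
    (T : Finset ℕ) (t : ℕ) (hT : T.card ≤ t) :
    ((∏ q : ↥Q, (good (Ioc u (u + w)) T q.1).card : ℕ) : ℝ) ≤
      (((t : ℝ) ^ c / Q.card) ^ (1 / (c - 1))) ^ Q.card := by
  have hk : 0 < (Q.card : ℝ) := by exact_mod_cast hne.card_pos
  have h1 : (∏ q : ↥Q, (good (Ioc u (u + w)) T q.1).card) =
      ∏ q ∈ Q, (good (Ioc u (u + w)) T q).card :=
    prod_coe_sort Q (fun q => (good (Ioc u (u + w)) T q).card)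
  rw [h1]
  push_cast
  have hc0 : 0 < c - 1 := by linarith
  have h3 : (∏ q ∈ Q, ((good (Ioc u (u + w)) T q).card : ℝ) ^ (c - 1)) ^ (1 / (Q.card : ℝ)) ≤
      (∑ q ∈ Q, ((good (Ioc u (u + w)) T q).card : ℝ) ^ (c - 1)) / Q.card := by
    have h4 := Real.geom_mean_le_arith_mean_weighted Q (fun _ => 1 / (Q.card : ℝ))
      (fun q => ((good (Ioc u (u + w)) T q).card : ℝ) ^ (c - 1)) (fun _ _ => by positivity)
      (by rw [sum_const, nsmul_eq_mul]; field_simp) (fun _ _ => by positivity)
    rw [Real.finsetProd_rpow _ _ (fun _ _ => by positivity)] at h4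
    refine h4.trans (le_of_eq ?_)
    rw [← mul_sum]
    ring
  have h5 := sum_good hc1 hc2 hSD u w Q hQ T t hT
  have h6 : (∏ q ∈ Q, ((good (Ioc u (u + w)) T q).card : ℝ) ^ (c - 1)) ^ (1 / (Q.card : ℝ)) ≤
      (t : ℝ) ^ c / Q.card := h3.trans (div_le_div_of_nonneg_right h5 hk.le)
  have h7 : 0 ≤ ∏ q ∈ Q, ((good (Ioc u (u + w)) T q).card : ℝ) ^ (c - 1) :=
    prod_nonneg fun _ _ => by positivity
  have h8 := pow_le_pow_left₀ (Real.rpow_nonneg h7 _) h6 Q.card
  rw [← Real.rpow_natCast, ← Real.rpow_mul h7, one_div_mul_cancel hk.ne', Real.rpow_one,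
    Real.finsetProd_rpow _ _ (fun _ _ => Nat.cast_nonneg _)] at h8
  have h9 : 0 ≤ ∏ q ∈ Q, ((good (Ioc u (u + w)) T q).card : ℝ) :=
    prod_nonneg fun _ _ => Nat.cast_nonneg _
  have h10 := Real.rpow_le_rpow (Real.rpow_nonneg h9 _) h8 (show 0 ≤ 1 / (c - 1) by positivity)
  rw [← Real.rpow_mul h9, mul_one_div_cancel hc0.ne', Real.rpow_one] at h10
  refine h10.trans (le_of_eq ?_)
  rw [← Real.rpow_natCast, ← Real.rpow_natCast, ← Real.rpow_mul (by positivity),
    ← Real.rpow_mul (by positivity), mul_comm]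

/-- the union bound -/
theorem union_bound {k : ℕ} {c : ℝ} (hc1 : 1 < c) (hc2 : c ≤ 2) (hSD : SD k c) (Q : Finset ℕ)
    (hne : Q.Nonempty) (N m w t : ℕ) (hw : ∀ q ∈ Q, k * q ≤ w)
    (hmw : m * w ≤ N) (x : ℝ) (hx : x < m * (t + 1)) :
    (((choices Q).filter (fun a => (hits Q N a : ℝ) < x)).card : ℝ) ≤
      m * (w + 1) ^ t * (((t : ℝ) ^ c / Q.card) ^ (1 / (c - 1))) ^ Q.card := by
  classical
  have hsub : (choices Q).filter (fun a => (hits Q N a : ℝ) < x) ⊆
      (range m).biUnion (fun i => ((Ioc (i * w) (i * w + w)).powerset.filter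
        (fun T => T.card ≤ t)).biUnion (fun T => Fintype.piFinset
          (fun q : ↥Q => good (Ioc (i * w) (i * w + w)) T q.1))) := by
    intro a ha
    rw [mem_filter, hits_eq] at ha
    obtain ⟨hac, hax⟩ := ha
    obtain ⟨C, hC⟩ : ∃ C, C = (Icc 1 N).filter (fun n => ∃ q : ↥Q, n % q.1 = a q) := ⟨_, rfl⟩
    rw [← hC] at hax
    obtain ⟨i, hi, hit⟩ : ∃ i < m, (C ∩ Ioc (i * w) (i * w + w)).card ≤ t := by
      by_contra hcon
      push Not at hcon
      have h1 : ∑ i ∈ range m, (C ∩ Ioc (i * w) (i * w + w)).card ≤ C.card := by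
        rw [← card_biUnion]
        · exact card_le_card (biUnion_subset.2 fun i _ => inter_subset_left)
        · intro i _ j _ hij
          rw [Function.onFun, disjoint_left]
          intro z hz hz'
          have h2 := mem_Ioc.1 (mem_inter.1 hz).2
          have h3 := mem_Ioc.1 (mem_inter.1 hz').2
          rcases lt_or_gt_of_ne hij with h | h
          · have : (i + 1) * w ≤ j * w := Nat.mul_le_mul_right _ h
            have e : (i + 1) * w = i * w + w := by ring
            omega
          · have : (j + 1) * w ≤ i * w := Nat.mul_le_mul_right _ h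
            have e : (j + 1) * w = j * w + w := by ring
            omega
      have h2 : m * (t + 1) ≤ C.card := by
        calc m * (t + 1) = ∑ i ∈ range m, (t + 1) := by rw [sum_const, card_range, smul_eq_mul]
          _ ≤ ∑ i ∈ range m, (C ∩ Ioc (i * w) (i * w + w)).card :=
              sum_le_sum fun i hi => hcon i (mem_range.1 hi)
          _ ≤ _ := h1
      have h3 : (m : ℝ) * (t + 1) ≤ C.card := by exact_mod_cast h2
      linarith
    refine mem_biUnion.2 ⟨i, mem_range.2 hi, mem_biUnion.2 ⟨C ∩ Ioc (i * w) (i * w + w), ?_, ?_⟩⟩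
    · rw [mem_filter, mem_powerset]
      exact ⟨inter_subset_right, hit⟩
    · rw [Fintype.mem_piFinset]
      intro q
      unfold good
      rw [mem_filter]
      refine ⟨Fintype.mem_piFinset.1 hac q, fun n hn hnq => mem_inter.2 ⟨?_, hn⟩⟩
      rw [hC, mem_filter, mem_Icc]
      have h1 := mem_Ioc.1 hn
      have h2 : (i + 1) * w ≤ m * w := Nat.mul_le_mul_right _ hi
      have e : (i + 1) * w = i * w + w := by ring
      exact ⟨⟨by omega, by omega⟩, q, hnq⟩
  have h1 := (card_le_card hsub).trans card_biUnion_le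
  have h2 : ∀ i ∈ range m, (((((Ioc (i * w) (i * w + w)).powerset.filter
        (fun T => T.card ≤ t)).biUnion (fun T => Fintype.piFinset
          (fun q : ↥Q => good (Ioc (i * w) (i * w + w)) T q.1))).card : ℕ) : ℝ) ≤
      (w + 1) ^ t * (((t : ℝ) ^ c / Q.card) ^ (1 / (c - 1))) ^ Q.card := by
    intro i _
    have h3 : ((((Ioc (i * w) (i * w + w)).powerset.filter
        (fun T => T.card ≤ t)).biUnion (fun T => Fintype.piFinset
          (fun q : ↥Q => good (Ioc (i * w) (i * w + w)) T q.1))).card : ℝ) ≤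
        ∑ T ∈ (Ioc (i * w) (i * w + w)).powerset.filter (fun T => T.card ≤ t),
          (((t : ℝ) ^ c / Q.card) ^ (1 / (c - 1))) ^ Q.card := by
      have h4 : ((((Ioc (i * w) (i * w + w)).powerset.filter
        (fun T => T.card ≤ t)).biUnion (fun T => Fintype.piFinset
          (fun q : ↥Q => good (Ioc (i * w) (i * w + w)) T q.1))).card : ℝ) ≤
          ((∑ T ∈ (Ioc (i * w) (i * w + w)).powerset.filter (fun T => T.card ≤ t),
            (Fintype.piFinset (fun q : ↥Q => good (Ioc (i * w) (i * w + w)) T q.1)).card : ℕ) : ℝ) := by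
        exact_mod_cast card_biUnion_le
      refine h4.trans ?_
      push_cast
      refine sum_le_sum fun T hT => ?_
      rw [Fintype.card_piFinset]
      exact prod_good hc1 hc2 hSD (i * w) w Q hne hw T t (mem_filter.1 hT).2
    refine h3.trans ?_
    rw [sum_const, nsmul_eq_mul]
    refine mul_le_mul_of_nonneg_right ?_ (by positivity)
    have h5 := card_small (Ioc (i * w) (i * w + w)) t
    rw [Nat.card_Ioc, Nat.add_sub_cancel_left] at h5
    exact_mod_cast h5
  calc (((choices Q).filter (fun a => (hits Q N a : ℝ) < x)).card : ℝ)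
      ≤ ((∑ i ∈ range m, ((((Ioc (i * w) (i * w + w)).powerset.filter
        (fun T => T.card ≤ t)).biUnion (fun T => Fintype.piFinset
          (fun q : ↥Q => good (Ioc (i * w) (i * w + w)) T q.1))).card) : ℕ) : ℝ) := by
        exact_mod_cast h1
    _ = ∑ i ∈ range m, (((((Ioc (i * w) (i * w + w)).powerset.filter
        (fun T => T.card ≤ t)).biUnion (fun T => Fintype.piFinset
          (fun q : ↥Q => good (Ioc (i * w) (i * w + w)) T q.1))).card : ℕ) : ℝ) := by
        push_cast
        rfl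
    _ ≤ ∑ i ∈ range m, ((w + 1) ^ t * (((t : ℝ) ^ c / Q.card) ^ (1 / (c - 1))) ^ Q.card) := sum_le_sum h2
    _ = _ := by
        rw [sum_const, card_range, nsmul_eq_mul]
        ring

end Pool.Agent.X163.PC.Rare
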