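import Mathlib
import Pool.Agent.H170R2.PC.Defs
import Pool.Agent.H170R2.PC.Primes

/-! Tools for the problem of one residue class for each prime near `N ^ α`. -/

set_option autoImplicit false

open Finset Filter Topology

namespace Pool.Agent.X163.PC

open Pool.Agent.H170R2.PC

/-- Integers in an interval which are congruent modulo `M`. -/
theorem card_le_of_dvd {M : ℕ} (hM : 0 < M) (s : ℤ) (L : ℕ) (S : Finset ℤ)
    (hS : S ⊆ Ico s (s + L)) (h : ∀ x ∈ S, ∀ y ∈ S, (M : ℤ) ∣ x - y) :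
    (S.card : ℝ) ≤ (L : ℝ) / M + 1 := by
  classical
  have hM' : (0 : ℤ) < M := by exact_mod_cast hM
  have hinj : Set.InjOn (fun x : ℤ => (x - s) / (M : ℤ)) (S : Set ℤ) := by
    intro x hx y hy hxy
    simp only at hxy
    have h1 := Int.emod_add_mul_ediv (x - s) M
    have h2 := Int.emod_add_mul_ediv (y - s) M
    have h3 : (x - s) % M = (y - s) % M := by
      have h4 : (M : ℤ) ∣ (y - s) - (x - s) := by
        have := h y hy x hx
        have e : (y - s) - (x - s) = y - x := by ring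
        rwa [e]
      exact (Int.modEq_iff_dvd.2 h4 : (x - s) ≡ (y - s) [ZMOD M])
    rw [h3, hxy] at h1
    linarith
  have h1 : S.card = (S.image (fun x : ℤ => (x - s) / (M : ℤ))).card :=
    (card_image_of_injOn hinj).symm
  have h2 : S.image (fun x : ℤ => (x - s) / (M : ℤ)) ⊆ Icc 0 ((L : ℤ) / M) := by
    intro z hz
    obtain ⟨x, hx, rfl⟩ := mem_image.1 hz
    have hx' := mem_Ico.1 (hS hx)
    rw [mem_Icc]
    refine ⟨Int.ediv_nonneg (by linarith [hx'.1]) hM'.le, ?_⟩
    exact Int.ediv_le_ediv hM' (by linarith [hx'.2])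
  have h3 := card_le_card h2
  rw [← h1, Int.card_Icc] at h3
  have h4 : ((L : ℤ) / M + 1 - 0).toNat = L / M + 1 := by
    have : ((L : ℤ) / M + 1 - 0) = ((L / M + 1 : ℕ) : ℤ) := by push_cast; ring
    rw [this, Int.toNat_natCast]
  rw [h4] at h3
  have h5 : ((L / M : ℕ) : ℝ) ≤ (L : ℝ) / M := Nat.cast_div_le
  have h6 : (S.card : ℝ) ≤ ((L / M + 1 : ℕ) : ℝ) := by exact_mod_cast h3
  push_cast at h6
  linarith

/-- The finite set of the primes in the range. -/
noncomputable def PR (α : ℝ) (N : ℕ) : Finset ℕ :=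
  open Classical in (range ⌈2 * (N : ℝ) ^ α⌉₊).filter (fun p => InRange α N p)

theorem mem_PR {α : ℝ} {N p : ℕ} : p ∈ PR α N ↔ InRange α N p := by
  classical
  unfold PR
  rw [mem_filter, mem_range]
  constructor
  · exact fun h => h.2
  · intro h
    refine ⟨?_, h⟩
    exact Nat.lt_ceil.2 h.2.2

/-- Lower bound for the number of primes in the range. -/
theorem PR_lower {α κ : ℝ} (hα : 0 < α) (hκ : 0 < κ) (hκα : κ ≤ α) :
    ∀ᶠ N : ℕ in atTop, (N : ℝ) ^ (α - κ) ≤ ((PR α N).card : ℝ) := by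
  have h1 := dyadic_primes (η := κ / α) (by positivity) ((div_le_one hα).2 hκα)
  have h2 : Tendsto (fun N : ℕ => (N : ℝ) ^ α) atTop atTop :=
    (tendsto_rpow_atTop hα).comp tendsto_natCast_atTop_atTop
  filter_upwards [h2.eventually h1, eventually_ge_atTop 1] with N hN hN1
  have h3 := hN (PR α N) (fun p hp h1 h2 => mem_PR.2 ⟨hp, h1, h2⟩)
  have hN0 : (0 : ℝ) < N := by exact_mod_cast hN1
  rwa [← Real.rpow_mul hN0.le, show α * (1 - κ / α) = α - κ by field_simp] at h3

/-- The sum of the reciprocals of the primes in the range is `O(1 / log N)`. -/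
theorem PR_recip {α : ℝ} (hα : 0 < α) {N : ℕ} (hN : 2 ≤ N) :
    (∑ p ∈ PR α N, 1 / (p : ℝ)) ≤ 4 * Real.log 4 / (α * Real.log N) := by
  classical
  have hN0 : (0 : ℝ) < N := by positivity
  have hN1 : (1 : ℝ) ≤ N := by exact_mod_cast (by omega : 1 ≤ N)
  obtain ⟨x, hx⟩ : ∃ x, x = (N : ℝ) ^ α := ⟨_, rfl⟩
  have hx0 : 0 < x := by rw [hx]; positivity
  have hx1 : 1 ≤ x := by rw [hx]; exact Real.one_le_rpow hN1 hα.le
  have hlog : 0 < Real.log N := Real.log_pos (by exact_mod_cast (by omega : 1 < N))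
  have hlx : Real.log x = α * Real.log N := by rw [hx, Real.log_rpow hN0]
  -- number of primes
  have h1 : ((PR α N).card : ℝ) * (α * Real.log N) ≤ 4 * Real.log 4 * x := by
    have h2 : x ^ (PR α N).card ≤ ∏ p ∈ PR α N, (p : ℝ) := by
      rw [← prod_const]
      refine prod_le_prod (fun _ _ => hx0.le) fun p hp => ?_
      rw [hx]
      exact (mem_PR.1 hp).2.1
    have h3 : (∏ p ∈ PR α N, (p : ℝ)) ≤ (4 : ℝ) ^ (⌈2 * x⌉₊) := by
      have h4 : (∏ p ∈ PR α N, p) ≤ primorial ⌈2 * x⌉₊ := by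
        unfold primorial
        refine prod_le_prod_of_subset_of_one_le' ?_ ?_
        · intro p hp
          rw [mem_filter, mem_range]
          have h5 := mem_PR.1 hp
          refine ⟨?_, h5.1⟩
          have : p < ⌈2 * x⌉₊ := Nat.lt_ceil.2 (by rw [hx]; exact h5.2.2)
          omega
        · intro p hp _
          exact (mem_filter.1 hp).2.one_lt.le
      have h5 : ((∏ p ∈ PR α N, p : ℕ) : ℝ) ≤ ((4 ^ ⌈2 * x⌉₊ : ℕ) : ℝ) := by
        exact_mod_cast h4.trans (primorial_le_four_pow _)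
      rw [Nat.cast_prod] at h5
      push_cast at h5
      exact h5
    have h4 := Real.log_le_log (by positivity) (h2.trans h3)
    rw [Real.log_pow, Real.log_pow, hlx] at h4
    have h5 : ((⌈2 * x⌉₊ : ℕ) : ℝ) ≤ 4 * x := by
      have := (Nat.ceil_lt_add_one (by positivity : 0 ≤ 2 * x)).le
      linarith
    have h6 : 0 < Real.log 4 := Real.log_pos (by norm_num)
    nlinarith
  have h2 : (∑ p ∈ PR α N, 1 / (p : ℝ)) ≤ ((PR α N).card : ℝ) * (1 / x) := by
    rw [← nsmul_eq_mul, ← sum_const]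
    refine sum_le_sum fun p hp => ?_
    rw [hx]
    have h5 := (mem_PR.1 hp).2.1
    exact one_div_le_one_div_of_le (by rw [← hx]; exact hx0) h5
  refine h2.trans ?_
  rw [le_div_iff₀ (by positivity), mul_one_div, div_mul_eq_mul_div, div_le_iff₀ hx0]
  exact h1

theorem PR_recip_small {α ε : ℝ} (hα : 0 < α) (hε : 0 < ε) :
    ∀ᶠ N : ℕ in atTop, (∑ p ∈ PR α N, 1 / (p : ℝ)) ≤ ε := by
  have h1 : Tendsto (fun N : ℕ => Real.log N) atTop atTop :=
    Real.tendsto_log_atTop.comp tendsto_natCast_atTop_atTop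
  filter_upwards [h1.eventually_ge_atTop (4 * Real.log 4 / (α * ε)), eventually_ge_atTop 2,
    h1.eventually_gt_atTop 0] with N h2 h3 h4
  refine (PR_recip hα h3).trans ?_
  rw [div_le_iff₀ (by positivity)] at h2 ⊢
  linarith

/-- `N` times the sum of the reciprocals of the primes in the range dominates their number. -/
theorem PR_card_le {α : ℝ} {N : ℕ} (hN : 1 ≤ N) :
    ((PR α N).card : ℝ) * (N : ℝ) ^ (1 - α) ≤ 2 * (N * ∑ p ∈ PR α N, 1 / (p : ℝ)) := by
  have hN0 : (0 : ℝ) < N := by exact_mod_cast hN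
  have h2 : ((PR α N).card : ℝ) * (1 / (2 * (N : ℝ) ^ α)) ≤ (∑ p ∈ PR α N, 1 / (p : ℝ)) := by
    rw [← nsmul_eq_mul, ← sum_const]
    refine sum_le_sum fun p hp => ?_
    have h5 := (mem_PR.1 hp).2.2
    have h6 : (0 : ℝ) < p := by exact_mod_cast (mem_PR.1 hp).1.pos
    exact one_div_le_one_div_of_le h6 h5.le
  have h3 : (N : ℝ) ^ (1 - α) = N / (N : ℝ) ^ α := by
    rw [Real.rpow_sub hN0, Real.rpow_one]
  have h4 : (0 : ℝ) < (N : ℝ) ^ α := by positivity
  rw [h3]
  calc ((PR α N).card : ℝ) * (N / (N : ℝ) ^ α)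
      = 2 * (N * (((PR α N).card : ℝ) * (1 / (2 * (N : ℝ) ^ α)))) := by
        field_simp
    _ ≤ _ := by
        refine mul_le_mul_of_nonneg_left (mul_le_mul_of_nonneg_left h2 hN0.le) (by norm_num)

end Pool.Agent.X163.PC
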